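import Pool.Agent.X164.Rot2

set_option autoImplicit false

namespace Pool.Agent.Results.MP_b27533_gt.NotEllipsoid

open Set Metric MeasureTheory
open Pool.Agent.X164.SupportBody
open Pool.Agent.X164.CompleteSym
open Pool.Agent.X164.Rot2

/-- `B` is a linear image of a completely symmetric set. -/
def IsLinearImageCompSym {m : ℕ} (B : Set (E m)) : Prop :=
  ∃ (A : Set (E m)) (T : E m ≃ₗ[ℝ] E m), IsCompletelySymmetric A ∧ B = T '' A

/-- An origin-symmetric ellipsoid. -/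
def IsOriginEllipsoid {m : ℕ} (K : Set (E m)) : Prop :=
  ∃ T : E m ≃ₗ[ℝ] E m, K = T '' closedBall 0 1

/-- The orthogonal projection of `K` onto `uᗮ`, read in `E 2` through the linear isometry `ι`. -/
def projCoord (u : E 3) (ι : E 2 →ₗᵢ[ℝ] E 3) (K : Set (E 3)) : Set (E 2) :=
  {x | ι x ∈ (Submodule.span ℝ {u})ᗮ.starProjection '' K}

/-- a fourth root -/
noncomputable def wa : ℝ := Real.sqrt (Real.sqrt (1 / 6))
noncomputable def wb : ℝ := Real.sqrt (Real.sqrt (1 / 4))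

lemma wa4 : wa ^ 4 = 1 / 6 := by
  have h : wa ^ 4 = (wa ^ 2) ^ 2 := by ring
  rw [h, wa, Real.sq_sqrt (Real.sqrt_nonneg _), Real.sq_sqrt (by norm_num)]

lemma wb4 : wb ^ 4 = 1 / 4 := by
  have h : wb ^ 4 = (wb ^ 2) ^ 2 := by ring
  rw [h, wb, Real.sq_sqrt (Real.sqrt_nonneg _), Real.sq_sqrt (by norm_num)]

/-- nine linear forms -/
noncomputable def L (y : E 3) : Fin 9 → ℝ :=
  ![y 0, wa * y 1, wa * y 2, wb * (y 0 + y 1), wb * (y 0 - y 1), wb * (y 0 + y 2),
    wb * (y 0 - y 2), wa * (y 1 + y 2), wa * (y 1 - y 2)]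

lemma L_add (y z : E 3) (i : Fin 9) : L (y + z) i = L y i + L z i := by
  fin_cases i <;> simp [L] <;> ring

lemma L_smul (c : ℝ) (y : E 3) (i : Fin 9) : L (c • y) i = c * L y i := by
  fin_cases i <;> simp [L] <;> ring

/-- the support function -/
noncomputable def hK (y : E 3) : ℝ := (∑ i, |L y i| ^ (4 : ℝ)) ^ (1 / (4 : ℝ))

lemma hK_nonneg (y : E 3) : 0 ≤ hK y := by
  unfold hK; positivity

lemma hK_pow (y : E 3) : hK y ^ 4 =
    (2 * y 0 ^ 2 + y 1 ^ 2 + y 2 ^ 2) * (y 0 ^ 2 + y 1 ^ 2 + y 2 ^ 2) := by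
  have h1 : hK y ^ 4 = ∑ i, (L y i) ^ 4 := by
    unfold hK
    rw [← Real.rpow_natCast, ← Real.rpow_mul (by positivity)]
    norm_num
    apply Finset.sum_congr rfl
    intro i _
    exact Even.pow_abs (by decide) _
  rw [h1]
  simp only [Fin.sum_univ_succ, L]
  simp
  have ha := wa4
  have hb := wb4
  linear_combination (y 1 ^ 4 + y 2 ^ 4 + (y 1 + y 2) ^ 4 + (y 1 - y 2) ^ 4) * ha +
    ((y 0 + y 1) ^ 4 + (y 0 - y 1) ^ 4 + (y 0 + y 2) ^ 4 + (y 0 - y 2) ^ 4) * hb

lemma hK_sublinear : Sublinear hK where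
  smul c hc y := by
    unfold hK
    have h1 : ∀ i, |L (c • y) i| ^ (4 : ℝ) = c ^ (4 : ℝ) * |L y i| ^ (4 : ℝ) := by
      intro i
      rw [L_smul, abs_mul, abs_of_pos hc, Real.mul_rpow hc.le (abs_nonneg _)]
    simp only [h1]
    rw [← Finset.mul_sum, Real.mul_rpow (by positivity) (by positivity), ← Real.rpow_mul hc.le]
    norm_num
  add_le y z := by
    unfold hK
    have h1 := Real.Lp_add_le Finset.univ (L y) (L z) (p := 4) (by norm_num)
    simp only [L_add]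
    exact h1

lemma normsq3 (y : E 3) : ‖y‖ ^ 2 = y 0 ^ 2 + y 1 ^ 2 + y 2 ^ 2 := by
  rw [EuclideanSpace.norm_sq_eq]
  simp [Fin.sum_univ_three]

lemma normsq2 (y : E 2) : ‖y‖ ^ 2 = y 0 ^ 2 + y 1 ^ 2 := by
  rw [EuclideanSpace.norm_sq_eq]
  simp [Fin.sum_univ_two]

lemma hK_pow' (y : E 3) : hK y ^ 4 = (‖y‖ ^ 2 + y 0 ^ 2) * ‖y‖ ^ 2 := by
  rw [hK_pow, normsq3]; ring

lemma hK_le (y : E 3) : hK y ≤ 2 * ‖y‖ := by
  have h1 := hK_pow' y
  have h2 : y 0 ^ 2 ≤ ‖y‖ ^ 2 := by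
    rw [normsq3]; nlinarith [sq_nonneg (y 1), sq_nonneg (y 2)]
  apply le_of_pow_le_pow_left₀ (n := 4) (by norm_num) (by positivity)
  rw [h1]
  have h3 : 0 ≤ ‖y‖ ^ 2 := by positivity
  nlinarith

lemma hK_ge (y : E 3) : 1 * ‖y‖ ≤ hK y := by
  have h1 := hK_pow' y
  apply le_of_pow_le_pow_left₀ (n := 4) (by norm_num) (hK_nonneg y)
  rw [h1]
  have h3 : 0 ≤ ‖y‖ ^ 2 := by positivity
  nlinarith [sq_nonneg (y 0)]

lemma proj_body' {m n : ℕ} (h : E n → ℝ) (hh : Sublinear h) (ι : E m →ₗᵢ[ℝ] E n)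
    (L : Submodule ℝ (E n)) (hL : LinearMap.range ι.toLinearMap = L) :
    {x : E m | ι x ∈ L.starProjection '' body h} = body (fun y => h (ι y)) := by
  subst hL
  exact proj_body h hh ι

/-- coordinates of the first coordinate functional on a plane -/
noncomputable def m0 (ι : E 2 →ₗᵢ[ℝ] E 3) : ℝ := (ι (EuclideanSpace.single 0 1)) 0
noncomputable def m1 (ι : E 2 →ₗᵢ[ℝ] E 3) : ℝ := (ι (EuclideanSpace.single 1 1)) 0

lemma iota_zero (ι : E 2 →ₗᵢ[ℝ] E 3) (y : E 2) : (ι y) 0 = m0 ι * y 0 + m1 ι * y 1 := by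
  have hy : y = y 0 • EuclideanSpace.single 0 (1 : ℝ) + y 1 • EuclideanSpace.single 1 (1 : ℝ) := by
    ext i
    fin_cases i <;> simp
  conv_lhs => rw [hy, map_add, map_smul, map_smul]
  simp [m0, m1]
  ring

lemma polar (a b : ℝ) : ∃ r c s : ℝ, c ^ 2 + s ^ 2 = 1 ∧ a = r * c ∧ b = r * s := by
  by_cases h : a = 0 ∧ b = 0
  · exact ⟨0, 1, 0, by norm_num, by simp [h.1], by simp [h.2]⟩
  · have h1 : 0 < a ^ 2 + b ^ 2 := by
      rcases not_and_or.mp h with h | h
      · positivity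
      · positivity
    have h2 : 0 < Real.sqrt (a ^ 2 + b ^ 2) := Real.sqrt_pos.mpr h1
    have h3 : Real.sqrt (a ^ 2 + b ^ 2) ^ 2 = a ^ 2 + b ^ 2 := Real.sq_sqrt h1.le
    refine ⟨Real.sqrt (a ^ 2 + b ^ 2), a / Real.sqrt (a ^ 2 + b ^ 2),
      b / Real.sqrt (a ^ 2 + b ^ 2), ?_, ?_, ?_⟩
    · rw [div_pow, div_pow, h3]
      field_simp
    · field_simp
    · field_simp

/-- the diagonal map `(x₀, x₁) ↦ (δ x₀, x₁)` -/
noncomputable def diag (δ : ℝ) (hδ : δ ≠ 0) : E 2 ≃ₗ[ℝ] E 2 where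
  toFun x := WithLp.toLp 2 ![δ * x 0, x 1]
  invFun x := WithLp.toLp 2 ![δ⁻¹ * x 0, x 1]
  map_add' x y := by
    ext i
    fin_cases i <;> simp <;> ring
  map_smul' a x := by
    ext i
    fin_cases i <;> simp <;> ring
  left_inv x := by
    ext i
    fin_cases i <;> simp [hδ]
  right_inv x := by
    ext i
    fin_cases i <;> simp [hδ]

lemma diag_symm (δ : ℝ) (hδ : δ ≠ 0) (x y : E 2) :
    inner ℝ (diag δ hδ x) y = inner ℝ x (diag δ hδ y) := by
  simp [diag, PiLp.inner_apply, Fin.sum_univ_two]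
  ring

lemma body_rot {φ : E 2 → ℝ} (R : E 2 ≃ₗᵢ[ℝ] E 2) (hφ : ∀ y, φ (R y) = φ y) :
    R '' body φ = body φ := by
  apply Subset.antisymm
  · rintro _ ⟨x, hx, rfl⟩ y
    have h1 := hx (R.symm y)
    rw [← R.inner_map_map, R.apply_symm_apply, ← hφ, R.apply_symm_apply] at h1
    exact h1
  · intro x hx
    refine ⟨R.symm x, fun y => ?_, R.apply_symm_apply x⟩
    have h1 := hx (R y)
    rw [hφ, ← R.apply_symm_apply x, R.inner_map_map] at h1
    exact h1

lemma plane_case (ι : E 2 →ₗᵢ[ℝ] E 3) : IsLinearImageCompSym (body (fun y => hK (ι y))) := by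
  obtain ⟨r, c, s, hcs, h0, h1⟩ := polar (m0 ι) (m1 ι)
  -- δ^4 = 1 / (1 + r^2)
  set δ := Real.sqrt (Real.sqrt (1 / (1 + r ^ 2))) with hδd
  have hδ : 0 < δ := Real.sqrt_pos.mpr (Real.sqrt_pos.mpr (by positivity))
  have hδ4 : δ ^ 4 * (1 + r ^ 2) = 1 := by
    have h : δ ^ 4 = (δ ^ 2) ^ 2 := by ring
    rw [h, hδd, Real.sq_sqrt (Real.sqrt_nonneg _), Real.sq_sqrt (by positivity)]
    field_simp
  set D := diag δ hδ.ne' with hD
  set ρ := rot c s hcs with hρ
  -- the pulled-back function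
  set φ : E 2 → ℝ := fun w => hK (ι (ρ (D w))) with hφ
  have hform : ∀ w : E 2, (φ w) ^ 4 =
      (w 0) ^ 4 + (w 1) ^ 4 + (δ ^ 2 + (1 + r ^ 2) * δ ^ 2) * ((w 0) ^ 2 * (w 1) ^ 2) := by
    intro w
    change hK (ι (ρ (D w))) ^ 4 = _
    rw [hK_pow', ι.norm_map, ρ.norm_map, normsq2, iota_zero, hρ, rot_apply_zero, rot_apply_one,
      h0, h1]
    have e0 : (D w) 0 = δ * w 0 := rfl
    have e1 : (D w) 1 = w 1 := rfl
    rw [e0, e1]
    have e2 : r * c * (c * (δ * w 0) - s * w 1) + r * s * (s * (δ * w 0) + c * w 1) =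
        r * (δ * w 0) := by linear_combination (r * δ * w 0) * hcs
    rw [e2]
    linear_combination (w 0) ^ 4 * hδ4
  have hφ0 : ∀ w, 0 ≤ φ w := fun w => hK_nonneg _
  have h90 : (0 : ℝ) ^ 2 + 1 ^ 2 = 1 := by norm_num
  have hinv : ∀ w, φ (rot 0 1 h90 w) = φ w := by
    intro w
    rw [← pow_left_inj₀ (hφ0 _) (hφ0 _) (n := 4) (by norm_num), hform, hform, rot_apply_zero,
      rot_apply_one]
    ring
  refine ⟨body φ, D.symm.trans ρ.toLinearEquiv, ?_, ?_⟩
  · exact completelySymmetric_of_rigid (by norm_num) _ (rigid_of _ _ h90 one_ne_zero)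
      (fun v hv => rot_fix _ _ h90 one_ne_zero v hv) _ (body_rot _ hinv)
  · ext x
    constructor
    · intro hx
      refine ⟨D (ρ.symm x), ?_, ?_⟩
      · intro w
        have h2 := hx (ρ (D w))
        rw [diag_symm, ← ρ.inner_map_map, ρ.apply_symm_apply]
        exact h2
      · simp
    · rintro ⟨z, hz, rfl⟩ y
      have h2 := hz (D.symm (ρ.symm y))
      simp only [hφ] at h2
      rw [LinearEquiv.apply_symm_apply, ρ.apply_symm_apply] at h2
      refine le_trans (le_of_eq ?_) h2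
      change inner ℝ (ρ (D.symm z)) y = _
      rw [← ρ.apply_symm_apply y, ρ.inner_map_map, ρ.apply_symm_apply]
      have h3 := diag_symm δ hδ.ne' (D.symm z) (D.symm (ρ.symm y))
      rw [← hD, LinearEquiv.apply_symm_apply, LinearEquiv.apply_symm_apply] at h3
      exact h3.symm

lemma final (a b p q : ℝ) (a2 : a ^ 2 = 2) (b2 : b ^ 2 = 1) (p2 : p ^ 2 = 6) (q2 : q ^ 2 = 6)
    (b0 : 0 ≤ b) (p0 : 0 ≤ p) (q0 : 0 ≤ q) (h : p + q = 2 * (a + b)) : False := by
  have hb1 : b = 1 := by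
    have h1 : (b - 1) * (b + 1) = 0 := by linear_combination b2
    rcases mul_eq_zero.mp h1 with h1 | h1 <;> linarith
  have hpq : p = q := by
    have h1 : (p - q) * (p + q) = 0 := by linear_combination p2 - q2
    rcases mul_eq_zero.mp h1 with h1 | h1 <;> linarith
  have hpa : p = a + 1 := by linarith
  have ha3 : a = 3 / 2 := by
    rw [hpa] at p2
    linear_combination (1 / 2) * (p2 - a2)
  rw [ha3] at a2
  norm_num at a2

lemma not_ellipsoid : ¬ IsOriginEllipsoid (body hK) := by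
  rintro ⟨T, hT⟩
  set S := LinearMap.adjoint (T : E 3 →ₗ[ℝ] E 3) with hS
  have hadj : ∀ u v : E 3, inner ℝ (T u) v = inner ℝ u (S v) := fun u v =>
    (LinearMap.adjoint_inner_right (T : E 3 →ₗ[ℝ] E 3) u v).symm
  have key : ∀ y, hK y = ‖S y‖ := by
    intro y
    apply le_antisymm
    · obtain ⟨k, hk, hky⟩ := exists_attained hK hK_sublinear y
      rw [hT] at hk
      obtain ⟨u, hu, rfl⟩ := hk
      have hu' : ‖u‖ ≤ 1 := by simpa using hu
      rw [← hky, hadj]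
      have h2 := real_inner_le_norm u (S y)
      have h3 := norm_nonneg (S y)
      nlinarith
    · by_cases hy : S y = 0
      · rw [hy, norm_zero]; exact hK_nonneg y
      · have hyn : 0 < ‖S y‖ := norm_pos_iff.mpr hy
        have hmem : T (‖S y‖⁻¹ • S y) ∈ body hK := by
          rw [hT]
          refine ⟨_, ?_, rfl⟩
          rw [mem_closedBall_zero_iff, norm_smul, norm_inv, norm_norm, inv_mul_cancel₀ hyn.ne']
        have h1 := hmem y
        rw [hadj, inner_smul_left, real_inner_self_eq_norm_sq] at h1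
        simp only [conj_trivial] at h1
        have h2 : ‖S y‖⁻¹ * ‖S y‖ ^ 2 = ‖S y‖ := by field_simp
        linarith
  have par : ∀ y z, hK (y + z) ^ 2 + hK (y - z) ^ 2 = 2 * (hK y ^ 2 + hK z ^ 2) := by
    intro y z
    rw [key, key, key, key, map_add, map_sub]
    have := parallelogram_law_with_norm ℝ (S y) (S z)
    nlinarith
  have h1 := par (EuclideanSpace.single 0 1) (EuclideanSpace.single 1 1)
  have p0 := hK_pow (EuclideanSpace.single 0 1)
  have p1 := hK_pow (EuclideanSpace.single 1 1)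
  have pp := hK_pow (EuclideanSpace.single 0 1 + EuclideanSpace.single 1 1)
  have pm := hK_pow (EuclideanSpace.single 0 1 - EuclideanSpace.single 1 1)
  have q0 : hK (EuclideanSpace.single 0 1) ^ 4 = 2 := by rw [p0]; simp
  have q1 : hK (EuclideanSpace.single 1 1) ^ 4 = 1 := by rw [p1]; simp
  have qp : hK (EuclideanSpace.single 0 1 + EuclideanSpace.single 1 1) ^ 4 = 6 := by
    rw [pp]; simp; norm_num
  have qm : hK (EuclideanSpace.single 0 1 - EuclideanSpace.single 1 1) ^ 4 = 6 := by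
    rw [pm]; simp; norm_num
  set a := hK (EuclideanSpace.single 0 1) ^ 2 with ha
  set b := hK (EuclideanSpace.single 1 1) ^ 2 with hb
  set p := hK (EuclideanSpace.single 0 1 + EuclideanSpace.single 1 1) ^ 2 with hp
  set q := hK (EuclideanSpace.single 0 1 - EuclideanSpace.single 1 1) ^ 2 with hq
  have a2 : a ^ 2 = 2 := by rw [ha, ← pow_mul]; exact q0
  have b2 : b ^ 2 = 1 := by rw [hb, ← pow_mul]; exact q1
  have p2 : p ^ 2 = 6 := by rw [hp, ← pow_mul]; exact qp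
  have q2 : q ^ 2 = 6 := by rw [hq, ← pow_mul]; exact qm
  have a0 : 0 ≤ a := sq_nonneg _
  have b0 : 0 ≤ b := sq_nonneg _
  have p00 : 0 ≤ p := sq_nonneg _
  have q00 : 0 ≤ q := sq_nonneg _
  exact final a b p q a2 b2 p2 q2 b0 p00 q00 h1

/-- There is a convex body in three-space that is not an origin-symmetric ellipsoid, all of
whose projections onto planes `uᗮ` are linear images of completely symmetric sets. -/
theorem result : ∃ K : Set (E 3), IsCompact K ∧ Convex ℝ K ∧ (interior K).Nonempty ∧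
    (∀ u : E 3, ‖u‖ = 1 → ∀ ι : E 2 →ₗᵢ[ℝ] E 3,
      LinearMap.range ι.toLinearMap = (Submodule.span ℝ {u})ᗮ →
      IsLinearImageCompSym (projCoord u ι K)) ∧ ¬ IsOriginEllipsoid K := by
  refine ⟨body hK, body_compact hK 2 (by norm_num) hK_le, body_convex hK,
    body_interior hK 1 (by norm_num) hK_ge, ?_, not_ellipsoid⟩
  intro u _ ι hι
  have h1 : projCoord u ι (body hK) = body (fun y => hK (ι y)) :=
    proj_body' hK hK_sublinear ι _ hι
  rw [h1]
  exact plane_case ι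

end Pool.Agent.Results.MP_b27533_gt.NotEllipsoid
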